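import Mathlib

set_option autoImplicit false

open Finset

namespace Pool.Agent.Q107.FW

/-- The clique complex of the graph `G` is a (flag) weak `(d-1)`-pseudomanifold: every maximal
clique of `G` has exactly `d` vertices, and the common neighbourhood of every clique with `d-1`
vertices consists of two non-adjacent vertices. -/
def FlagWeakPM {V : Type} (d : ℕ) (G : SimpleGraph V) : Prop :=
  (∀ s : Finset V, Maximal (fun t : Finset V => G.IsClique (t : Set V)) s → s.card = d) ∧
  (∀ s : Finset V, G.IsClique (s : Set V) → s.card + 1 = d →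
    ∃ a b : V, a ≠ b ∧ ¬ G.Adj a b ∧ ∀ v, (∀ u ∈ s, G.Adj u v) ↔ (v = a ∨ v = b))

/-- The number of `r`-dimensional faces of the clique complex of `G`. -/
noncomputable def faceCount {V : Type} (r : ℕ) (G : SimpleGraph V) : ℕ :=
  Set.ncard {s : Finset V | G.IsClique (s : Set V) ∧ s.card = r + 1}

/-! ### facet systems -/

variable {I U : Type}

/-- pairwise determined -/
def Flg (F : Set (I → U)) : Prop :=
  ∀ (J : Set I) (v : I → U), (∀ a ∈ J, ∀ b ∈ J, ∃ f ∈ F, f a = v a ∧ f b = v b) →
    ∃ f ∈ F, ∀ a ∈ J, f a = v a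

/-- two facets never differ in exactly one place -/
def Unq (F : Set (I → U)) : Prop :=
  ∀ f ∈ F, ∀ g ∈ F, ∀ i : I, (∀ j, j ≠ i → f j = g j) → f = g

/-- product of facet systems -/
def Prd {P : Type} (F : P → Set (I → U)) : Set (I → (P → U)) :=
  {x | ∀ p, (fun i => x i p) ∈ F p}

theorem flg_prd {P : Type} (F : P → Set (I → U)) (h : ∀ p, Flg (F p)) : Flg (Prd F) := by
  intro J v hv
  have h1 : ∀ p, ∃ f ∈ F p, ∀ a ∈ J, f a = v a p := by
    intro p
    refine h p J (fun i => v i p) ?_
    intro a ha b hb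
    obtain ⟨f, hf, h1, h2⟩ := hv a ha b hb
    refine ⟨fun i => f i p, hf p, ?_, ?_⟩
    · simp only [h1]
    · simp only [h2]
  choose f hf hf2 using h1
  refine ⟨fun i p => f p i, fun p => hf p, ?_⟩
  intro a ha
  funext p
  exact hf2 p a ha

theorem unq_prd {P : Type} (F : P → Set (I → U)) (h : ∀ p, Unq (F p)) : Unq (Prd F) := by
  intro f hf g hg i hfg
  funext j p
  have := h p _ (hf p) _ (hg p) i (fun j hj => by simp only [hfg j hj])
  exact congrFun this j

/-- a system on three colours, placed on the colours `col`; the other colours are trivial -/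
def Chn {K : Type} (u₀ : U) (col : K → I) (F : Set (K → U)) : Set (I → U) :=
  {x | (fun k => x (col k)) ∈ F ∧ ∀ i, (∀ k, col k ≠ i) → x i = u₀}

theorem flg_chn {K : Type} (u₀ : U) (col : K → I) (hcol : Function.Injective col)
    (F : Set (K → U)) (h : Flg F) : Flg (Chn u₀ col F) := by
  intro J v hv
  obtain ⟨f, hf, hfv⟩ := h {k | col k ∈ J} (fun k => v (col k)) (by
    intro a ha b hb
    obtain ⟨g, hg, h1, h2⟩ := hv (col a) ha (col b) hb
    exact ⟨_, hg.1, h1, h2⟩)
  refine ⟨Function.extend col f (fun _ => u₀), ⟨?_, ?_⟩, ?_⟩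
  · have : (fun k => Function.extend col f (fun _ => u₀) (col k)) = f := by
      funext k
      exact hcol.extend_apply _ _ _
    rw [this]; exact hf
  · intro i hi
    rw [Function.extend_apply' _ _ _ (by rintro ⟨k, hk⟩; exact hi k hk)]
  · intro a ha
    by_cases hk : ∃ k, col k = a
    · obtain ⟨k, rfl⟩ := hk
      rw [hcol.extend_apply]
      exact hfv k ha
    · rw [Function.extend_apply' _ _ _ hk]
      obtain ⟨g, hg, h1, -⟩ := hv a ha a ha
      rw [← h1]
      exact (hg.2 a (by intro k hka; exact hk ⟨k, hka⟩)).symm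

theorem unq_chn {K : Type} (u₀ : U) (col : K → I) (hcol : Function.Injective col)
    (F : Set (K → U)) (h : Unq F) : Unq (Chn u₀ col F) := by
  intro x hx y hy i hxy
  funext j
  by_cases hji : j = i
  · subst hji
    by_cases hk : ∃ k, col k = j
    · obtain ⟨k, rfl⟩ := hk
      have := h _ hx.1 _ hy.1 k (fun k' hk' => hxy _ (fun e => hk' (hcol e)))
      exact congrFun this k
    · rw [hx.2 j (by intro k hk'; exact hk ⟨k, hk'⟩), hy.2 j (by intro k hk'; exact hk ⟨k, hk'⟩)]
  · exact hxy j hji

/-- A tripartite triangle system in which every triangle and every edge determines the facet. -/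
def Tri3 (F : Set (Fin 3 → U)) : Prop :=
  ∀ f ∈ F, ∀ g ∈ F, ∀ h ∈ F, f 0 = h 0 → f 1 = g 1 → g 2 = h 2 → f = g ∧ g = h

theorem flg_tri {F : Set (Fin 3 → U)} (h : Tri3 F) (hne : F.Nonempty) : Flg F := by
  classical
  intro J v hv
  obtain ⟨f₀, hf₀⟩ := hne
  have key : ∀ a b c : Fin 3, (∀ x, x = a ∨ x = b ∨ x = c) → c ∉ J →
      ∃ f ∈ F, ∀ x ∈ J, f x = v x := by
    intro a b c hx hc
    by_cases ha : a ∈ J
    · by_cases hb : b ∈ J
      · obtain ⟨f, hf, h1, h2⟩ := hv a ha b hb
        refine ⟨f, hf, ?_⟩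
        intro x hxJ
        rcases hx x with rfl | rfl | rfl
        · exact h1
        · exact h2
        · exact absurd hxJ hc
      · obtain ⟨f, hf, h1, -⟩ := hv a ha a ha
        refine ⟨f, hf, ?_⟩
        intro x hxJ
        rcases hx x with rfl | rfl | rfl
        · exact h1
        · exact absurd hxJ hb
        · exact absurd hxJ hc
    · by_cases hb : b ∈ J
      · obtain ⟨f, hf, h1, -⟩ := hv b hb b hb
        refine ⟨f, hf, ?_⟩
        intro x hxJ
        rcases hx x with rfl | rfl | rfl
        · exact absurd hxJ ha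
        · exact h1
        · exact absurd hxJ hc
      · refine ⟨f₀, hf₀, ?_⟩
        intro x hxJ
        rcases hx x with rfl | rfl | rfl
        · exact absurd hxJ ha
        · exact absurd hxJ hb
        · exact absurd hxJ hc
  by_cases h0 : (0 : Fin 3) ∈ J
  · by_cases h1 : (1 : Fin 3) ∈ J
    · by_cases h2 : (2 : Fin 3) ∈ J
      · obtain ⟨f, hf, hf0, hf1⟩ := hv 0 h0 1 h1
        obtain ⟨g, hg, hg1, hg2⟩ := hv 1 h1 2 h2
        obtain ⟨k, hk, hk0, hk2⟩ := hv 0 h0 2 h2
        obtain ⟨e1, e2⟩ := h f hf g hg k hk (by rw [hf0, hk0]) (by rw [hf1, hg1])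
          (by rw [hg2, hk2])
        subst e1
        refine ⟨f, hf, ?_⟩
        intro x _
        fin_cases x
        · exact hf0
        · exact hf1
        · exact hg2
      · exact key 0 1 2 (by intro x; fin_cases x <;> simp) h2
    · exact key 0 2 1 (by intro x; fin_cases x <;> simp) h1
  · exact key 1 2 0 (by intro x; fin_cases x <;> simp) h0

theorem unq_tri {F : Set (Fin 3 → U)} (h : Tri3 F) : Unq F := by
  intro f hf g hg i hfg
  by_cases h0 : i = 0
  · subst h0
    have h1 := hfg 1 (by decide)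
    have h2 := hfg 2 (by decide)
    exact (h f hf g hg f hf rfl h1 h2.symm).1
  · by_cases h1 : i = 1
    · subst h1
      have h0 := hfg 0 (by decide)
      have h2 := hfg 2 (by decide)
      exact (h f hf f hf g hg h0 rfl h2).2
    · have e0 := hfg 0 (fun e => h0 e.symm)
      have e1 := hfg 1 (fun e => h1 e.symm)
      exact (h f hf g hg g hg e0 e1 rfl).1

/-! ### the graph -/

/-- vertices: (colour, value, sign) occurring in a facet -/
def Vtx (F : Set (I → U)) : Type := {x : I × U × Bool // ∃ f ∈ F, f x.1 = x.2.1}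

/-- the graph of the doubled facet system -/
def Gr (F : Set (I → U)) : SimpleGraph (Vtx F) where
  Adj x y := x.1.1 ≠ y.1.1 ∧ ∃ f ∈ F, f x.1.1 = x.1.2.1 ∧ f y.1.1 = y.1.2.1
  symm := ⟨by
    rintro x y ⟨h1, f, hf, h2, h3⟩
    exact ⟨h1.symm, f, hf, h3, h2⟩⟩
  loopless := ⟨by
    rintro x ⟨h1, -⟩
    exact h1 rfl⟩

theorem clique_ext {F : Set (I → U)} (hF : Flg F) (hne0 : F.Nonempty) (s : Finset (Vtx F))
    (hs : (Gr F).IsClique (s : Set (Vtx F))) :
    ∃ f ∈ F, ∀ x ∈ s, f x.1.1 = x.1.2.1 := by
  classical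
  by_cases hne : s.Nonempty
  · obtain ⟨x₀, hx₀⟩ := hne
    have hinj : ∀ x ∈ s, ∀ y ∈ s, x.1.1 = y.1.1 → x = y := by
      intro x hx y hy h
      by_contra hne
      exact (hs hx hy hne).1 h
    let v : I → U := fun i => if h : ∃ x ∈ s, x.1.1 = i then (h.choose).1.2.1 else x₀.1.2.1
    have hv : ∀ x ∈ s, v x.1.1 = x.1.2.1 := by
      intro x hx
      have h : ∃ y ∈ s, y.1.1 = x.1.1 := ⟨x, hx, rfl⟩
      have h2 : v x.1.1 = (h.choose).1.2.1 := dif_pos h
      rw [h2, hinj _ h.choose_spec.1 x hx h.choose_spec.2]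
    obtain ⟨f, hf, hfv⟩ := hF {i | ∃ x ∈ s, x.1.1 = i} v (by
      rintro a ⟨x, hx, rfl⟩ b ⟨y, hy, rfl⟩
      rw [hv x hx, hv y hy]
      by_cases hxy : x = y
      · subst hxy
        obtain ⟨f, hf, h1⟩ := x.2
        exact ⟨f, hf, h1, h1⟩
      · exact (hs hx hy hxy).2)
    refine ⟨f, hf, fun x hx => ?_⟩
    rw [hfv _ ⟨x, hx, rfl⟩, hv x hx]
  · rw [Finset.not_nonempty_iff_eq_empty] at hne
    subst hne
    obtain ⟨f, hf⟩ := hne0
    exact ⟨f, hf, by simp⟩

theorem clique_inj {F : Set (I → U)} {s : Finset (Vtx F)}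
    (hs : (Gr F).IsClique (s : Set (Vtx F))) {x y : Vtx F} (hx : x ∈ s) (hy : y ∈ s)
    (h : x.1.1 = y.1.1) : x = y := by
  by_contra hne
  exact (hs hx hy hne).1 h

theorem card_image_col [DecidableEq I] {F : Set (I → U)} {s : Finset (Vtx F)}
    (hs : (Gr F).IsClique (s : Set (Vtx F))) : (s.image (fun x => x.1.1)).card = s.card :=
  Finset.card_image_of_injOn (fun _ hx _ hy h => clique_inj hs hx hy h)

theorem fwpm [Fintype I] [Nonempty I] {F : Set (I → U)} (hF : Flg F) (hU : Unq F)
    (hne : F.Nonempty) : FlagWeakPM (Fintype.card I) (Gr F) := by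
  classical
  constructor
  · intro s hs
    have hs1 : (Gr F).IsClique (s : Set (Vtx F)) := hs.1
    rw [← card_image_col hs1, ← Finset.card_univ]
    congr 1
    rw [Finset.eq_univ_iff_forall]
    intro i
    by_contra hi
    obtain ⟨f, hf, hfs⟩ := clique_ext hF hne s hs1
    let w : Vtx F := ⟨(i, f i, true), f, hf, rfl⟩
    have hw : w ∉ s := by
      intro hw
      exact hi (Finset.mem_image.mpr ⟨w, hw, rfl⟩)
    have h2 : (Gr F).IsClique ((insert w s : Finset (Vtx F)) : Set (Vtx F)) := by
      rw [Finset.coe_insert, SimpleGraph.isClique_insert]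
      refine ⟨hs1, ?_⟩
      intro x hx hwx
      refine ⟨?_, f, hf, rfl, hfs x hx⟩
      intro e
      exact hi (Finset.mem_image.mpr ⟨x, hx, e.symm⟩)
    have h3 := hs.2 h2 (Finset.subset_insert w s)
    exact hw (h3 (Finset.mem_insert_self w s))
  · intro s hs hcard
    obtain ⟨f, hf, hfs⟩ := clique_ext hF hne s hs
    have hJ := card_image_col hs
    have hi : ∃ i, i ∉ s.image (fun x => x.1.1) := by
      by_contra hcon
      push Not at hcon
      have : s.image (fun x => x.1.1) = Finset.univ := Finset.eq_univ_iff_forall.mpr hcon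
      rw [this, Finset.card_univ] at hJ
      omega
    obtain ⟨i, hi⟩ := hi
    have hall : ∀ j, j ≠ i → j ∈ s.image (fun x => x.1.1) := by
      intro j hj
      by_contra hj2
      have hsub : s.image (fun x => x.1.1) ⊆ (Finset.univ.erase i).erase j := by
        intro a ha
        rw [Finset.mem_erase, Finset.mem_erase]
        refine ⟨?_, ?_, Finset.mem_univ _⟩
        · rintro rfl; exact hj2 ha
        · rintro rfl; exact hi ha
      have h1 := Finset.card_le_card hsub
      rw [Finset.card_erase_of_mem (Finset.mem_erase.mpr ⟨hj, Finset.mem_univ _⟩),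
        Finset.card_erase_of_mem (Finset.mem_univ _), Finset.card_univ, hJ] at h1
      have h2 : 2 ≤ Fintype.card I := by
        have : Finset.card {i, j} ≤ Fintype.card I := Finset.card_le_univ _
        rwa [Finset.card_pair (fun e => hj e.symm)] at this
      omega
    refine ⟨⟨(i, f i, true), f, hf, rfl⟩, ⟨(i, f i, false), f, hf, rfl⟩, ?_, ?_, ?_⟩
    · intro e
      have := congrArg (fun z : Vtx F => z.1.2.2) e
      simp at this
    · intro h
      exact h.1 rfl
    · intro x
      constructor
      · intro hx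
        have hxi : x.1.1 = i := by
          by_contra hne
          obtain ⟨u, hu, hux⟩ := Finset.mem_image.mp (hall _ hne)
          exact (hx u hu).1 hux
        have hxs : x ∉ s := by
          intro hxs
          exact hi (Finset.mem_image.mpr ⟨x, hxs, hxi⟩)
        have h2 : (Gr F).IsClique ((insert x s : Finset (Vtx F)) : Set (Vtx F)) := by
          rw [Finset.coe_insert, SimpleGraph.isClique_insert]
          refine ⟨hs, ?_⟩
          intro y hy _
          exact (hx y hy).symm
        obtain ⟨g, hg, hgs⟩ := clique_ext hF hne _ h2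
        have hfg : f = g := by
          refine hU f hf g hg i ?_
          intro j hj
          obtain ⟨u, hu, huj⟩ := Finset.mem_image.mp (hall _ hj)
          rw [← huj, hfs u hu, hgs u (Finset.mem_insert_of_mem hu)]
        have hxv : x.1.2.1 = f i := by
          rw [hfg, ← hgs x (Finset.mem_insert_self x s), hxi]
        rcases hb : x.1.2.2 with _ | _
        · right
          apply Subtype.ext
          exact Prod.ext hxi (Prod.ext hxv hb)
        · left
          apply Subtype.ext
          exact Prod.ext hxi (Prod.ext hxv hb)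
      · intro hx u hu
        have hui : u.1.1 ≠ i := by
          intro e
          exact hi (Finset.mem_image.mpr ⟨u, hu, e⟩)
        rcases hx with rfl | rfl
        · exact ⟨hui, f, hf, hfs u hu, rfl⟩
        · exact ⟨hui, f, hf, hfs u hu, rfl⟩

end Pool.Agent.Q107.FW
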