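import Mathlib
import Pool.Agent.Q107.FW.Basic

set_option autoImplicit false

open Finset

namespace Pool.Agent.Q107.FW

/-! ### greedy colouring -/

theorem greedy {α : Type} [Fintype α] [DecidableEq α] (L : ℕ) (R : α → α → Prop)
    [DecidableRel R] (hsymm : ∀ a b, R a b → R b a)
    (hd : ∀ a, (univ.filter (fun b => R a b)).card < L) :
    ∃ φ : α → Fin L, ∀ a b, a ≠ b → R a b → φ a ≠ φ b := by
  by_cases hα : Nonempty α
  · obtain ⟨a₀⟩ := hα
    have hL : 0 < L := lt_of_le_of_lt (Nat.zero_le _) (hd a₀)
    have key : ∀ S : Finset α, ∃ φ : α → Fin L, ∀ a ∈ S, ∀ b ∈ S, a ≠ b → R a b → φ a ≠ φ b := by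
      intro S
      induction S using Finset.induction_on with
      | empty => exact ⟨fun _ => ⟨0, hL⟩, by simp⟩
      | insert x S hx ih =>
        obtain ⟨φ, hφ⟩ := ih
        have h1 : ∃ c : Fin L, c ∉ (univ.filter (fun b => R x b)).image φ := by
          by_contra hcon
          push Not at hcon
          have h2 : (univ.filter (fun b => R x b)).image φ = univ :=
            Finset.eq_univ_iff_forall.mpr hcon
          have h3 := Finset.card_image_le (s := univ.filter (fun b => R x b)) (f := φ)
          rw [h2, Finset.card_univ, Fintype.card_fin] at h3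
          exact absurd (hd x) (by omega)
        obtain ⟨c, hc⟩ := h1
        refine ⟨Function.update φ x c, ?_⟩
        intro a ha b hb hab hR
        rw [Finset.mem_insert] at ha hb
        by_cases hax : a = x
        · subst hax
          have hbx : b ≠ a := hab.symm
          rw [Function.update_self, Function.update_of_ne hbx]
          intro e
          apply hc
          rw [Finset.mem_image]
          exact ⟨b, by simp [hR], e.symm⟩
        · by_cases hbx : b = x
          · subst hbx
            rw [Function.update_self, Function.update_of_ne hax]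
            intro e
            apply hc
            rw [Finset.mem_image]
            exact ⟨a, by simp [hsymm _ _ hR], e⟩
          · rw [Function.update_of_ne hax, Function.update_of_ne hbx]
            exact hφ a (ha.resolve_left hax) b (hb.resolve_left hbx) hab hR
    obtain ⟨φ, hφ⟩ := key univ
    exact ⟨φ, fun a b => hφ a (Finset.mem_univ _) b (Finset.mem_univ _)⟩
  · exact ⟨fun a => absurd ⟨a⟩ hα, fun a => absurd ⟨a⟩ hα⟩

/-! ### balls -/

theorem ball_card (D : ℕ) (a : Fin D → Fin 32) (τ : ℕ) :
    (univ.filter (fun b : Fin D → Fin 32 => hammingDist a b ≤ τ)).card ≤ (32 * D + 1) ^ τ := by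
  induction τ with
  | zero =>
    have : univ.filter (fun b : Fin D → Fin 32 => hammingDist a b ≤ 0) = {a} := by
      ext b
      simp only [Finset.mem_filter, Finset.mem_univ, true_and, Nat.le_zero,
        hammingDist_eq_zero, Finset.mem_singleton]
      exact eq_comm
    rw [this]; simp
  | succ τ ih =>
    have hsub : univ.filter (fun b : Fin D → Fin 32 => hammingDist a b ≤ τ + 1) ⊆
        Finset.image (fun z : (Fin D → Fin 32) × Option (Fin D × Fin 32) =>
          match z.2 with
          | none => z.1
          | some q => Function.update z.1 q.1 q.2)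
          ((univ.filter (fun b : Fin D → Fin 32 => hammingDist a b ≤ τ)) ×ˢ univ) := by
      intro b hb
      rw [Finset.mem_filter] at hb
      rw [Finset.mem_image]
      by_cases hab : a = b
      · subst hab
        refine ⟨(a, none), ?_, rfl⟩
        simp
      · obtain ⟨i, hi⟩ : ∃ i, a i ≠ b i := by
          by_contra hcon
          push Not at hcon
          exact hab (funext hcon)
        refine ⟨(Function.update b i (a i), some (i, b i)), ?_, ?_⟩
        · rw [Finset.mem_product, Finset.mem_filter]
          refine ⟨⟨Finset.mem_univ _, ?_⟩, Finset.mem_univ _⟩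
          have h1 : hammingDist a (Function.update b i (a i)) < hammingDist a b := by
            unfold hammingDist
            apply Finset.card_lt_card
            rw [Finset.ssubset_iff_of_subset]
            · refine ⟨i, by simp [hi], by simp⟩
            · intro j hj
              rw [Finset.mem_filter] at hj ⊢
              refine ⟨Finset.mem_univ _, ?_⟩
              by_cases hji : j = i
              · subst hji; exact hi
              · have := hj.2
                rwa [Function.update_of_ne hji] at this
          show hammingDist a (Function.update b i (a i)) ≤ τ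
          have := hb.2
          omega
        · show Function.update (Function.update b i (a i)) i (b i) = b
          rw [Function.update_idem, Function.update_eq_self]
    calc (univ.filter (fun b : Fin D → Fin 32 => hammingDist a b ≤ τ + 1)).card
        ≤ _ := Finset.card_le_card hsub
      _ ≤ _ := Finset.card_image_le
      _ = (univ.filter (fun b : Fin D → Fin 32 => hammingDist a b ≤ τ)).card * (32 * D + 1) := by
          rw [Finset.card_product, Finset.card_univ, Fintype.card_option, Fintype.card_prod,
            Fintype.card_fin, Fintype.card_fin, mul_comm D 32]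
      _ ≤ (32 * D + 1) ^ τ * (32 * D + 1) := Nat.mul_le_mul_right _ ih
      _ = _ := by rw [pow_succ]

/-! ### the quadratic form -/

/-- squared distance -/
def Qd {D : ℕ} (a b : Fin D → Fin 32) : ℤ := ∑ i, ((a i : ℤ) - (b i : ℤ)) ^ 2

theorem ham_le {D : ℕ} (a b : Fin D → Fin 32) : (hammingDist a b : ℤ) ≤ Qd a b := by
  unfold hammingDist Qd
  rw [Finset.card_filter, Nat.cast_sum]
  apply Finset.sum_le_sum
  intro i _
  by_cases h : a i = b i
  · simp [h]
  · have h2 : (a i : ℤ) - (b i : ℤ) ≠ 0 := by
      intro e
      apply h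
      apply Fin.ext
      omega
    have h3 : 0 < ((a i : ℤ) - (b i : ℤ)) ^ 2 := by positivity
    simp only [ne_eq, h, not_false_eq_true, if_true]
    push_cast
    omega

theorem Qd_comm {D : ℕ} (a b : Fin D → Fin 32) : Qd a b = Qd b a := by
  unfold Qd
  apply Finset.sum_congr rfl
  intro i _
  ring

/-- near pairs are separated by `φ` -/
theorem exists_code (D τ : ℕ) : ∃ φ : (Fin D → Fin 32) → Fin ((32 * D + 1) ^ τ + 1),
    ∀ a b, Qd a b ≤ τ → φ a = φ b → a = b := by
  classical
  obtain ⟨φ, hφ⟩ := greedy ((32 * D + 1) ^ τ + 1)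
    (fun a b : Fin D → Fin 32 => hammingDist a b ≤ τ)
    (fun a b h => by rwa [hammingDist_comm]) (fun a => Nat.lt_succ_of_le (ball_card D a τ))
  refine ⟨φ, fun a b hQ he => ?_⟩
  by_contra hne
  refine hφ a b hne ?_ he
  have := ham_le a b
  show hammingDist a b ≤ τ
  omega

/-- the window relation -/
def Rl {D : ℕ} (τ : ℕ) (a b : Fin D → Fin 32) : Prop := |2 * Qd a b - 341 * D| ≤ τ

/-- the carrier of values -/
abbrev Ky (D L : ℕ) : Type := (Fin D → Fin 63) × Fin L × Fin L

/-- the key -/
def key {D L : ℕ} (φ : (Fin D → Fin 32) → Fin L) (a b : Fin D → Fin 32) : Ky D L :=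
  (fun i => ⟨(a i : ℕ) + (b i : ℕ), by have := (a i).2; have := (b i).2; omega⟩, φ a, φ b)

/-- facets of the gadget -/
def Gd {D L : ℕ} (τ : ℕ) (φ : (Fin D → Fin 32) → Fin L) :
    Set (Fin 3 → (Fin D → Fin 32) ⊕ Ky D L) :=
  {f | ∃ a b, Rl τ a b ∧ f = ![Sum.inl a, Sum.inl b, Sum.inr (key φ a b)]}

theorem par {D : ℕ} (a a' b b' : Fin D → Fin 32)
    (h : ∀ i, (a' i : ℤ) + (b i : ℤ) = (a i : ℤ) + (b' i : ℤ)) :
    2 * (Qd a b + Qd a a') = Qd a' b + Qd a b' := by
  unfold Qd
  rw [← Finset.sum_add_distrib, ← Finset.sum_add_distrib, Finset.mul_sum]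
  apply Finset.sum_congr rfl
  intro i _
  have h1 := h i
  have h2 : (a' i : ℤ) = (a i : ℤ) + (b' i : ℤ) - (b i : ℤ) := by omega
  rw [h2]
  ring

theorem tri_gd {D L τ : ℕ} (φ : (Fin D → Fin 32) → Fin L)
    (hφ : ∀ a b, Qd a b ≤ τ → φ a = φ b → a = b) : Tri3 (Gd τ φ) := by
  rintro f ⟨a, b, hab, rfl⟩ g ⟨a', b', hab', rfl⟩ h ⟨a'', b'', hab'', rfl⟩ h0 h1 h2
  have e0 : a = a'' := Sum.inl.inj h0
  have e1 : b = b' := Sum.inl.inj h1
  have e2 : key φ a' b' = key φ a'' b'' := Sum.inr.inj h2
  subst e0
  subst e1
  unfold key at e2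
  have e3 : ∀ i, (a' i : ℤ) + (b i : ℤ) = (a i : ℤ) + (b'' i : ℤ) := by
    intro i
    have := congrArg (fun z => ((z.1 i : Fin 63) : ℕ)) e2
    simp only at this
    exact_mod_cast this
  have e4 : φ a' = φ a := congrArg (fun z => z.2.1) e2
  have hpar := par a a' b b'' e3
  have hq : Qd a a' ≤ τ := by
    unfold Rl at hab hab' hab''
    rw [abs_le] at hab hab' hab''
    omega
  have e5 : a = a' := hφ a a' hq e4.symm
  subst e5
  have e6 : b = b'' := by
    funext i
    apply Fin.ext
    have := e3 i
    omega
  subst e6
  exact ⟨rfl, rfl⟩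

end Pool.Agent.Q107.FW
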