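import Mathlib
import Pool.Agent.Q107.FW.Gadget

set_option autoImplicit false

open Finset

namespace Pool.Agent.Q107.FW

/-! ### second moment -/

theorem second_moment {Z : Type} [Fintype Z] (g : Z → ℤ) (hg : ∑ z, g z = 0) (B : ℤ)
    (hB : ∀ z, (g z) ^ 2 ≤ B) (D : ℕ) :
    ∑ z : Fin D → Z, (∑ i, g (z i)) ^ 2 ≤ D * B * (Fintype.card Z : ℤ) ^ D := by
  induction D with
  | zero => simp
  | succ D ih =>
    rw [← (Fin.consEquiv (fun _ : Fin (D + 1) => Z)).sum_comp, Fintype.sum_prod_type]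
    have h1 : ∀ (x : Z) (y : Fin D → Z),
        (∑ i, g ((Fin.consEquiv (fun _ : Fin (D + 1) => Z)) (x, y) i)) = g x + ∑ i, g (y i) := by
      intro x y
      rw [Fin.sum_univ_succ]
      simp [Fin.consEquiv]
    simp only [h1]
    have h2 : ∑ x : Z, ∑ y : Fin D → Z, (g x + ∑ i, g (y i)) ^ 2
        = (∑ x : Z, (g x) ^ 2) * (Fintype.card Z : ℤ) ^ D
          + (Fintype.card Z : ℤ) * ∑ y : Fin D → Z, (∑ i, g (y i)) ^ 2 := by
      have h3 : ∀ x : Z, ∑ y : Fin D → Z, (g x + ∑ i, g (y i)) ^ 2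
          = (g x) ^ 2 * (Fintype.card Z : ℤ) ^ D + 2 * g x * ∑ y : Fin D → Z, ∑ i, g (y i)
            + ∑ y : Fin D → Z, (∑ i, g (y i)) ^ 2 := by
        intro x
        have : ∀ y : Fin D → Z, (g x + ∑ i, g (y i)) ^ 2
            = (g x) ^ 2 + 2 * g x * (∑ i, g (y i)) + (∑ i, g (y i)) ^ 2 := fun y => by ring
        simp only [this]
        rw [Finset.sum_add_distrib, Finset.sum_add_distrib, ← Finset.mul_sum]
        congr 2
        rw [Finset.sum_const, Finset.card_univ, Fintype.card_fun, Fintype.card_fin, nsmul_eq_mul]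
        push_cast
        ring
      simp only [h3]
      rw [Finset.sum_add_distrib, Finset.sum_add_distrib, ← Finset.sum_mul, ← Finset.sum_mul,
        ← Finset.mul_sum, hg, Finset.sum_const, Finset.card_univ, nsmul_eq_mul]
      ring
    rw [h2]
    have h4 : (∑ x : Z, (g x) ^ 2) ≤ (Fintype.card Z : ℤ) * B := by
      calc (∑ x : Z, (g x) ^ 2) ≤ ∑ x : Z, B := Finset.sum_le_sum (fun x _ => hB x)
        _ = _ := by rw [Finset.sum_const, Finset.card_univ, nsmul_eq_mul]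
    have h5 : (0 : ℤ) ≤ (Fintype.card Z : ℤ) ^ D := by positivity
    have h6 : (0 : ℤ) ≤ (Fintype.card Z : ℤ) := by positivity
    calc (∑ x : Z, (g x) ^ 2) * (Fintype.card Z : ℤ) ^ D
          + (Fintype.card Z : ℤ) * ∑ y : Fin D → Z, (∑ i, g (y i)) ^ 2
        ≤ ((Fintype.card Z : ℤ) * B) * (Fintype.card Z : ℤ) ^ D
          + (Fintype.card Z : ℤ) * (D * B * (Fintype.card Z : ℤ) ^ D) :=
          add_le_add (mul_le_mul_of_nonneg_right h4 h5) (mul_le_mul_of_nonneg_left ih h6)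
      _ = _ := by push_cast; ring

/-- centred squared difference -/
def gg (z : Fin 32 × Fin 32) : ℤ := 2 * ((z.1 : ℤ) - (z.2 : ℤ)) ^ 2 - 341

theorem gg_sum : ∑ z, gg z = 0 := by decide +kernel

theorem gg_sq : ∀ z, (gg z) ^ 2 ≤ 1581 ^ 2 := by decide +kernel

theorem moment (D : ℕ) : ∑ q : (Fin D → Fin 32) × (Fin D → Fin 32), (2 * Qd q.1 q.2 - 341 * D) ^ 2
    ≤ D * 1581 ^ 2 * (1024 : ℤ) ^ D := by
  have h := second_moment gg gg_sum (1581 ^ 2) gg_sq D
  have hc : (Fintype.card (Fin 32 × Fin 32) : ℤ) = 1024 := by simp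
  rw [hc] at h
  refine le_trans (le_of_eq ?_) h
  rw [← (Equiv.arrowProdEquivProdArrow (Fin D) (fun _ => Fin 32) (fun _ => Fin 32)).sum_comp]
  apply Finset.sum_congr rfl
  intro z _
  congr 1
  unfold Qd gg
  simp only [Equiv.arrowProdEquivProdArrow, Equiv.coe_fn_mk]
  rw [Finset.sum_sub_distrib, Finset.mul_sum]
  simp
  ring

open Classical in
theorem many_edges (m : ℕ) (hm : 1 ≤ m) :
    3 * 1024 ^ (m ^ 2) ≤ 4 * (univ.filter (fun q : (Fin (m ^ 2) → Fin 32) × (Fin (m ^ 2) → Fin 32) =>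
      Rl (3162 * m) q.1 q.2)).card := by
  have hM := moment (m ^ 2)
  set E := univ.filter (fun q : (Fin (m ^ 2) → Fin 32) × (Fin (m ^ 2) → Fin 32) =>
      Rl (3162 * m) q.1 q.2) with hE
  set B := univ.filter (fun q : (Fin (m ^ 2) → Fin 32) × (Fin (m ^ 2) → Fin 32) =>
      ¬ Rl (3162 * m) q.1 q.2) with hB
  have h1 : E.card + B.card = 1024 ^ (m ^ 2) := by
    rw [hE, hB, Finset.card_filter_add_card_filter_not, Finset.card_univ, Fintype.card_prod,
      Fintype.card_fun, Fintype.card_fin, Fintype.card_fin, ← mul_pow]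
    norm_num
  have h2 : (B.card : ℤ) * (3162 * m) ^ 2 ≤ ∑ q : (Fin (m ^ 2) → Fin 32) × (Fin (m ^ 2) → Fin 32),
      (2 * Qd q.1 q.2 - 341 * ((m ^ 2 : ℕ) : ℤ)) ^ 2 := by
    calc (B.card : ℤ) * (3162 * m) ^ 2 = ∑ q ∈ B, (3162 * (m : ℤ)) ^ 2 := by
          rw [Finset.sum_const, nsmul_eq_mul]
      _ ≤ ∑ q ∈ B, (2 * Qd q.1 q.2 - 341 * ((m ^ 2 : ℕ) : ℤ)) ^ 2 := by
          apply Finset.sum_le_sum
          intro q hq
          rw [hB, Finset.mem_filter] at hq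
          have h3 := hq.2
          unfold Rl at h3
          rw [not_le] at h3
          rw [← sq_abs (2 * Qd q.1 q.2 - 341 * ((m ^ 2 : ℕ) : ℤ))]
          apply pow_le_pow_left₀ (by positivity)
          push_cast at h3 ⊢
          exact h3.le
      _ ≤ _ := Finset.sum_le_sum_of_subset_of_nonneg (Finset.subset_univ _)
          (fun q _ _ => by positivity)
  have h3 : (B.card : ℤ) * (3162 * m) ^ 2 ≤ ((m ^ 2 : ℕ) : ℤ) * 1581 ^ 2 * (1024 : ℤ) ^ (m ^ 2) :=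
    le_trans h2 hM
  have h4 : 4 * (B.card : ℤ) ≤ (1024 : ℤ) ^ (m ^ 2) := by
    have hpos : (0 : ℤ) < (m : ℤ) ^ 2 * 1581 ^ 2 := by
      have : (0 : ℤ) < m := by exact_mod_cast hm
      positivity
    have h5 : ((m : ℤ) ^ 2 * 1581 ^ 2) * (4 * (B.card : ℤ)) ≤
        ((m : ℤ) ^ 2 * 1581 ^ 2) * (1024 : ℤ) ^ (m ^ 2) := by
      push_cast at h3
      nlinarith [h3]
    exact le_of_mul_le_mul_left h5 hpos
  have h5 : 4 * B.card ≤ 1024 ^ (m ^ 2) := by exact_mod_cast h4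
  omega

/-- the carrier is small enough -/
theorem label_small : ∃ m₀ : ℕ, ∀ m ≥ m₀,
    63 ^ (m ^ 2) * (((32 * m ^ 2 + 1) ^ (3162 * m) + 1) * ((32 * m ^ 2 + 1) ^ (3162 * m) + 1))
      ≤ 64 ^ (m ^ 2) := by
  have h1 : Filter.Tendsto (fun m : ℕ => ((m : ℝ) ^ 19000) / ((64 / 63 : ℝ) ^ m)) Filter.atTop
      (nhds 0) := tendsto_pow_const_div_const_pow_of_one_lt 19000 (by norm_num)
  have h2 := (h1.eventually_lt_const (show (0 : ℝ) < 1 by norm_num))
  obtain ⟨m₁, hm₁⟩ := Filter.eventually_atTop.mp h2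
  refine ⟨max m₁ 100, fun m hm => ?_⟩
  have hm1 : m₁ ≤ m := le_trans (le_max_left _ _) hm
  have hm2 : 100 ≤ m := le_trans (le_max_right _ _) hm
  have h3 := hm₁ m hm1
  rw [div_lt_one (by positivity), div_pow, lt_div_iff₀ (by positivity)] at h3
  have h4 : m ^ 19000 * 63 ^ m < 64 ^ m := by exact_mod_cast h3
  have h5 : (32 * m ^ 2 + 1) ≤ m ^ 3 := by
    have : 32 * m ^ 2 + 1 ≤ 100 * m ^ 2 := by nlinarith
    calc 32 * m ^ 2 + 1 ≤ 100 * m ^ 2 := this
      _ ≤ m * m ^ 2 := Nat.mul_le_mul_right _ hm2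
      _ = m ^ 3 := by ring
  have h6 : (32 * m ^ 2 + 1) ^ (3162 * m) + 1 ≤ m ^ (9487 * m) := by
    have h7 : (32 * m ^ 2 + 1) ^ (3162 * m) ≤ m ^ (9486 * m) := by
      calc (32 * m ^ 2 + 1) ^ (3162 * m) ≤ (m ^ 3) ^ (3162 * m) := Nat.pow_le_pow_left h5 _
        _ = m ^ (9486 * m) := by rw [← pow_mul]; congr 1; ring
    have h8 : m ^ (9486 * m) + 1 ≤ m ^ (9487 * m) := by
      apply Nat.pow_lt_pow_right (by omega)
      have : 0 < m := by omega
      nlinarith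
    omega
  calc 63 ^ (m ^ 2) * (((32 * m ^ 2 + 1) ^ (3162 * m) + 1) * ((32 * m ^ 2 + 1) ^ (3162 * m) + 1))
      ≤ 63 ^ (m ^ 2) * (m ^ (9487 * m) * m ^ (9487 * m)) :=
        Nat.mul_le_mul_left _ (Nat.mul_le_mul h6 h6)
    _ = (m ^ 18974 * 63 ^ m) ^ m := by
        rw [mul_pow, ← pow_mul, ← pow_mul, ← pow_add, mul_comm]
        congr 2
        · ring
        · ring
    _ ≤ (m ^ 19000 * 63 ^ m) ^ m := by
        apply Nat.pow_le_pow_left
        apply Nat.mul_le_mul_right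
        exact Nat.pow_le_pow_right (by omega) (by norm_num)
    _ ≤ (64 ^ m) ^ m := Nat.pow_le_pow_left h4.le _
    _ = 64 ^ (m ^ 2) := by rw [← pow_mul, sq]

end Pool.Agent.Q107.FW
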