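import Mathlib
import Pool.Agent.Q107.FW.Count

set_option autoImplicit false

open Finset

namespace Pool.Agent.Q107.FW

/-- **The small middle face number property for `r`**: for every `β > 0` there is `n₀` such that
every flag weak `(2r-1)`-pseudomanifold with `n ≥ n₀` vertices has at most `β n ^ (r+1)` faces of
dimension `r`. -/
def SmallMiddle (r : ℕ) : Prop :=
  ∀ β : ℝ, 0 < β → ∃ n₀ : ℕ, ∀ (V : Type) [Fintype V] (G : SimpleGraph V),
    n₀ ≤ Fintype.card V → FlagWeakPM (2 * r) G →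
      (faceCount r G : ℝ) ≤ β * (Fintype.card V : ℝ) ^ (r + 1)

section constr

variable (r : ℕ) {D L : ℕ} (τ : ℕ) (φ : (Fin D → Fin 32) → Fin L)

/-- colours -/
abbrev Cl (r : ℕ) : Type := ZMod (r + 1) ⊕ Fin (r - 1)

/-- channels -/
abbrev Ch (r : ℕ) : Type := ZMod (r + 1) × {t : ZMod (r + 1) // t ≠ 0} × Fin (r - 1)

/-- the three colours of a channel -/
def col (p : Ch r) : Fin 3 → Cl r := ![Sum.inl p.1, Sum.inl (p.1 + p.2.1.1), Sum.inr p.2.2]

theorem col_inj (p : Ch r) : Function.Injective (col r p) := by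
  intro a b h
  have ht := p.2.1.2
  fin_cases a <;> fin_cases b <;> simp [col, ht] at h ⊢

abbrev Vl (D L : ℕ) : Type := (Fin D → Fin 32) ⊕ Ky D L

/-- default value -/
def u0 : Vl D L := Sum.inl (fun _ => 0)

/-- the facet system -/
def FF : Set (Cl r → (Ch r → Vl D L)) := Prd (fun p => Chn u0 (col r p) (Gd τ φ))

/-- the facet of a family of edges -/
noncomputable def fct (e : Ch r → {q : (Fin D → Fin 32) × (Fin D → Fin 32) // Rl τ q.1 q.2})
    (i : Cl r) (p : Ch r) : Vl D L :=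
  Function.extend (col r p)
    (![Sum.inl (e p).1.1, Sum.inl (e p).1.2, Sum.inr (key φ (e p).1.1 (e p).1.2)])
    (fun _ => u0) i

theorem fct_mem (e : Ch r → {q : (Fin D → Fin 32) × (Fin D → Fin 32) // Rl τ q.1 q.2}) :
    fct r τ φ e ∈ FF r τ φ := by
  intro p
  constructor
  · refine ⟨(e p).1.1, (e p).1.2, (e p).2, ?_⟩
    funext k
    exact (col_inj r p).extend_apply _ _ _
  · intro i hi
    show Function.extend (col r p) _ (fun _ => u0) i = u0
    rw [Function.extend_apply' _ _ _ (by rintro ⟨k, hk⟩; exact hi k hk)]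

theorem fct0 (e : Ch r → {q : (Fin D → Fin 32) × (Fin D → Fin 32) // Rl τ q.1 q.2}) (p : Ch r) :
    fct r τ φ e (Sum.inl p.1) p = Sum.inl (e p).1.1 :=
  (col_inj r p).extend_apply _ _ (0 : Fin 3)

theorem fct1 (e : Ch r → {q : (Fin D → Fin 32) × (Fin D → Fin 32) // Rl τ q.1 q.2}) (p : Ch r) :
    fct r τ φ e (Sum.inl (p.1 + p.2.1.1)) p = Sum.inl (e p).1.2 :=
  (col_inj r p).extend_apply _ _ (1 : Fin 3)

/-- the vertex of colour `inl i` -/
noncomputable def vx (e : Ch r → {q : (Fin D → Fin 32) × (Fin D → Fin 32) // Rl τ q.1 q.2})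
    (i : ZMod (r + 1)) : Vtx (FF r τ φ) :=
  ⟨(Sum.inl i, fct r τ φ e (Sum.inl i), true), fct r τ φ e, fct_mem r τ φ e, rfl⟩

open Classical in
theorem count_faces :
    (Fintype.card {q : (Fin D → Fin 32) × (Fin D → Fin 32) // Rl τ q.1 q.2}) ^
      (Fintype.card (Ch r)) ≤ faceCount r (Gr (FF r τ φ)) := by
  classical
  have hfin : Finite (Vtx (FF r τ φ)) := by
    unfold Vtx
    infer_instance
  have := Fintype.ofFinite (Vtx (FF r τ φ))
  rw [← Fintype.card_fun]
  let S : (Ch r → {q : (Fin D → Fin 32) × (Fin D → Fin 32) // Rl τ q.1 q.2}) →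
      Finset (Vtx (FF r τ φ)) := fun e => univ.image (vx r τ φ e)
  have hinj : Function.Injective S := by
    intro e e' h
    have h1 : ∀ i, fct r τ φ e (Sum.inl i) = fct r τ φ e' (Sum.inl i) := by
      intro i
      have h2 : vx r τ φ e i ∈ S e' := by
        rw [← h]
        exact Finset.mem_image_of_mem _ (Finset.mem_univ i)
      obtain ⟨j, -, hj⟩ := Finset.mem_image.mp h2
      have h3 := congrArg (fun z => z.1.1) hj
      have h4 := congrArg (fun z => z.1.2.1) hj
      simp only [vx] at h3 h4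
      have h5 : j = i := Sum.inl.inj h3
      subst h5
      exact h4.symm
    funext p
    apply Subtype.ext
    apply Prod.ext
    · have := congrFun (h1 p.1) p
      rw [fct0, fct0] at this
      exact Sum.inl.inj this
    · have := congrFun (h1 (p.1 + p.2.1.1)) p
      rw [fct1, fct1] at this
      exact Sum.inl.inj this
  unfold faceCount
  rw [← Nat.card_eq_fintype_card, ← Set.ncard_range_of_injective hinj]
  apply Set.ncard_le_ncard _ (Set.toFinite _)
  rintro _ ⟨e, rfl⟩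
  constructor
  · intro x hx y hy hxy
    obtain ⟨i, -, rfl⟩ := Finset.mem_image.mp (Finset.mem_coe.mp hx)
    obtain ⟨j, -, rfl⟩ := Finset.mem_image.mp (Finset.mem_coe.mp hy)
    refine ⟨?_, fct r τ φ e, fct_mem r τ φ e, rfl, rfl⟩
    intro h
    apply hxy
    have : i = j := Sum.inl.inj h
    rw [this]
  · show (univ.image (vx r τ φ e)).card = r + 1
    rw [Finset.card_image_of_injective, Finset.card_univ, ZMod.card]
    intro i j h
    have h3 := congrArg (fun z => z.1.1) h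
    exact Sum.inl.inj h3

open Classical in
/-- possible values -/
noncomputable def Sp (p : Ch r) (i : Cl r) : Finset (Vl D L) :=
  if i = Sum.inl p.1 ∨ i = Sum.inl (p.1 + p.2.1.1) then univ.image Sum.inl
  else if i = Sum.inr p.2.2 then univ.image Sum.inr else {u0}

theorem mem_Sp (p : Ch r) (x : Cl r → Vl D L) (hx : x ∈ Chn u0 (col r p) (Gd τ φ)) (i : Cl r) :
    x i ∈ Sp r p i := by
  classical
  obtain ⟨⟨a, b, -, hab⟩, h2⟩ := hx
  have e0 : x (Sum.inl p.1) = Sum.inl a := congrFun hab 0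
  have e1 : x (Sum.inl (p.1 + p.2.1.1)) = Sum.inl b := congrFun hab 1
  have e2 : x (Sum.inr p.2.2) = Sum.inr (key φ a b) := congrFun hab 2
  unfold Sp
  split_ifs with h3 h4
  · rcases h3 with rfl | rfl
    · rw [e0]; exact Finset.mem_image_of_mem _ (Finset.mem_univ _)
    · rw [e1]; exact Finset.mem_image_of_mem _ (Finset.mem_univ _)
  · rw [h4, e2]; exact Finset.mem_image_of_mem _ (Finset.mem_univ _)
  · rw [Finset.mem_singleton]
    apply h2
    intro k
    fin_cases k
    · intro e; exact h3 (Or.inl e.symm)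
    · intro e; exact h3 (Or.inr e.symm)
    · intro e; exact h4 e.symm

open Classical in
theorem card_Sp (N M : ℕ) (hN : (32 : ℕ) ^ D = N) (hM : Fintype.card (Ky D L) ≤ M) (hN1 : 1 ≤ N)
    (hM1 : 1 ≤ M) (p : Ch r) (i : Cl r) :
    (Sp (D := D) (L := L) r p i).card ≤ (if i = Sum.inl p.1 then N else 1) *
      (if i = Sum.inl (p.1 + p.2.1.1) then N else 1) * (if i = Sum.inr p.2.2 then M else 1) := by
  have hX : (univ.image (Sum.inl : (Fin D → Fin 32) → Vl D L)).card = N := by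
    rw [Finset.card_image_of_injective _ Sum.inl_injective, Finset.card_univ, Fintype.card_fun,
      Fintype.card_fin, Fintype.card_fin, hN]
  have hY : (univ.image (Sum.inr : Ky D L → Vl D L)).card ≤ M := by
    rw [Finset.card_image_of_injective _ Sum.inr_injective, Finset.card_univ]
    exact hM
  have hA : 1 ≤ (if i = Sum.inl p.1 then N else 1) := by split_ifs <;> omega
  have hB : 1 ≤ (if i = Sum.inl (p.1 + p.2.1.1) then N else 1) := by split_ifs <;> omega
  have hC : 1 ≤ (if i = Sum.inr p.2.2 then M else 1) := by split_ifs <;> omega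
  unfold Sp
  by_cases h3 : i = Sum.inl p.1 ∨ i = Sum.inl (p.1 + p.2.1.1)
  · rw [if_pos h3, hX]
    rcases h3 with h3 | h3
    · rw [if_pos h3]
      calc N = N * 1 * 1 := by ring
        _ ≤ _ := Nat.mul_le_mul (Nat.mul_le_mul le_rfl hB) hC
    · rw [if_pos h3]
      calc N = 1 * N * 1 := by ring
        _ ≤ _ := Nat.mul_le_mul (Nat.mul_le_mul hA le_rfl) hC
  · rw [if_neg h3]
    by_cases h4 : i = Sum.inr p.2.2
    · rw [if_pos h4, if_pos h4]
      calc _ ≤ M := hY
        _ = 1 * 1 * M := by ring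
        _ ≤ _ := Nat.mul_le_mul (Nat.mul_le_mul hA hB) le_rfl
    · rw [if_neg h4, Finset.card_singleton]
      calc 1 = 1 * 1 * 1 := by ring
        _ ≤ _ := Nat.mul_le_mul (Nat.mul_le_mul hA hB) hC

theorem card_ne : Fintype.card {t : ZMod (r + 1) // t ≠ 0} = r := by
  classical
  rw [Fintype.card_subtype_compl, ZMod.card]
  simp

open Classical in
theorem prod_inl (N M : ℕ) (c : ZMod (r + 1)) :
    ∏ p : Ch r, ((if (Sum.inl c : Cl r) = Sum.inl p.1 then N else 1) *
      (if (Sum.inl c : Cl r) = Sum.inl (p.1 + p.2.1.1) then N else 1) *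
      (if (Sum.inl c : Cl r) = Sum.inr p.2.2 then M else 1)) = N ^ (2 * (r * (r - 1))) := by
  rw [Finset.prod_mul_distrib, Finset.prod_mul_distrib]
  have h1 : ∏ p : Ch r, (if (Sum.inl c : Cl r) = Sum.inr p.2.2 then M else 1) = 1 := by
    apply Finset.prod_eq_one
    intro p _
    rw [if_neg (by simp)]
  have h2 : ∏ p : Ch r, (if (Sum.inl c : Cl r) = Sum.inl p.1 then N else 1)
      = N ^ (r * (r - 1)) := by
    rw [Fintype.prod_prod_type]
    simp only [Sum.inl.injEq]
    rw [Finset.prod_eq_single c]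
    · simp only [if_true]
      rw [Finset.prod_const, Finset.card_univ, Fintype.card_prod, card_ne, Fintype.card_fin]
    · intro b _ hb
      apply Finset.prod_eq_one
      intro q _
      rw [if_neg hb.symm]
    · intro h
      exact absurd (Finset.mem_univ c) h
  have h3 : ∏ p : Ch r, (if (Sum.inl c : Cl r) = Sum.inl (p.1 + p.2.1.1) then N else 1)
      = N ^ (r * (r - 1)) := by
    rw [Fintype.prod_prod_type, Finset.prod_comm]
    simp only [Sum.inl.injEq]
    have h4 : ∀ q : {t : ZMod (r + 1) // t ≠ 0} × Fin (r - 1),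
        ∏ x : ZMod (r + 1), (if c = x + q.1.1 then N else 1) = N := by
      intro q
      rw [Finset.prod_eq_single (c - q.1.1)]
      · rw [if_pos (by ring)]
      · intro b _ hb
        rw [if_neg]
        intro e
        apply hb
        rw [e]; ring
      · intro h
        exact absurd (Finset.mem_univ _) h
    rw [Finset.prod_congr rfl (fun q _ => h4 q), Finset.prod_const, Finset.card_univ,
      Fintype.card_prod, card_ne, Fintype.card_fin]
  rw [h1, h2, h3, mul_one, ← pow_add]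
  congr 1
  ring

open Classical in
theorem prod_inr (N M : ℕ) (c : Fin (r - 1)) :
    ∏ p : Ch r, ((if (Sum.inr c : Cl r) = Sum.inl p.1 then N else 1) *
      (if (Sum.inr c : Cl r) = Sum.inl (p.1 + p.2.1.1) then N else 1) *
      (if (Sum.inr c : Cl r) = Sum.inr p.2.2 then M else 1)) = M ^ ((r + 1) * r) := by
  rw [Finset.prod_mul_distrib, Finset.prod_mul_distrib]
  have h1 : ∏ p : Ch r, (if (Sum.inr c : Cl r) = Sum.inl p.1 then N else 1) = 1 := by
    apply Finset.prod_eq_one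
    intro p _
    rw [if_neg (by simp)]
  have h2 : ∏ p : Ch r, (if (Sum.inr c : Cl r) = Sum.inl (p.1 + p.2.1.1) then N else 1) = 1 := by
    apply Finset.prod_eq_one
    intro p _
    rw [if_neg (by simp)]
  have h3 : ∏ p : Ch r, (if (Sum.inr c : Cl r) = Sum.inr p.2.2 then M else 1)
      = M ^ ((r + 1) * r) := by
    rw [Fintype.prod_prod_type]
    simp only [Sum.inr.injEq]
    have h4 : ∀ x : ZMod (r + 1), ∏ q : {t : ZMod (r + 1) // t ≠ 0} × Fin (r - 1),
        (if c = q.2 then M else 1) = M ^ r := by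
      intro x
      rw [Fintype.prod_prod_type]
      have h5 : ∀ t : {t : ZMod (r + 1) // t ≠ 0}, ∏ l : Fin (r - 1), (if c = l then M else 1)
          = M := by
        intro t
        rw [Finset.prod_ite_eq]
        simp
      rw [Finset.prod_congr rfl (fun t _ => h5 t), Finset.prod_const, Finset.card_univ, card_ne]
    rw [Finset.prod_congr rfl (fun q _ => h4 q), Finset.prod_const, Finset.card_univ,
      ZMod.card, ← pow_mul, mul_comm]
  rw [h1, h2, h3, one_mul, one_mul]

theorem card_vtx (hr : 4 ≤ r) (hD : 63 ^ D * (L * L) ≤ 64 ^ D)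
    [Fintype (Vtx (FF r τ φ))] :
    Fintype.card (Vtx (FF r τ φ)) ≤ 4 * r * 32 ^ (D * (2 * (r * (r - 1)))) := by
  classical
  have hKy : Fintype.card (Ky D L) ≤ 64 ^ D := by
    rw [Fintype.card_prod, Fintype.card_prod, Fintype.card_fun, Fintype.card_fin, Fintype.card_fin,
      Fintype.card_fin]
    exact hD
  let A : Cl r → Finset (Ch r → Vl D L) := fun i => Fintype.piFinset (fun p => Sp r p i)
  have h1 : Fintype.card (Vtx (FF r τ φ)) ≤ Fintype.card (Σ i : Cl r, {u // u ∈ A i} × Bool) := by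
    refine Fintype.card_le_of_injective (fun x => ⟨x.1.1, ⟨x.1.2.1, ?_⟩, x.1.2.2⟩) ?_
    · obtain ⟨f, hf, hfx⟩ := x.2
      rw [Fintype.mem_piFinset]
      intro p
      rw [← hfx]
      exact mem_Sp r τ φ p _ (hf p) _
    · rintro ⟨⟨i, u, b⟩, hx⟩ ⟨⟨i', u', b'⟩, hy⟩ h
      simp only [Sigma.mk.injEq] at h
      obtain ⟨rfl, h⟩ := h
      simp only [heq_eq_eq, Prod.mk.injEq, Subtype.mk.injEq] at h
      obtain ⟨rfl, rfl⟩ := h
      rfl
  refine le_trans h1 ?_
  rw [Fintype.card_sigma]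
  have h2 : ∀ i : Cl r, Fintype.card ({u // u ∈ A i} × Bool) ≤
      2 * 32 ^ (D * (2 * (r * (r - 1)))) := by
    intro i
    rw [Fintype.card_prod, Fintype.card_coe, Fintype.card_bool, mul_comm]
    apply Nat.mul_le_mul_left
    rw [Fintype.card_piFinset]
    refine le_trans (Finset.prod_le_prod' (fun p _ => card_Sp r (32 ^ D) (64 ^ D) rfl hKy
      (Nat.one_le_pow _ _ (by norm_num)) (Nat.one_le_pow _ _ (by norm_num)) p i)) ?_
    rcases i with c | c
    · rw [prod_inl, ← pow_mul]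
    · rw [prod_inr, ← pow_mul]
      have e1 : (64 : ℕ) = 2 ^ 6 := by norm_num
      have e2 : (32 : ℕ) = 2 ^ 5 := by norm_num
      rw [e1, e2, ← pow_mul, ← pow_mul]
      apply Nat.pow_le_pow_right (by norm_num)
      obtain ⟨s, rfl⟩ : ∃ s, r = s + 4 := ⟨r - 4, by omega⟩
      have e3 : s + 4 - 1 = s + 3 := by omega
      rw [e3]
      have : 6 * ((s + 4 + 1) * (s + 4)) ≤ 5 * (2 * ((s + 4) * (s + 3))) := by nlinarith
      calc 6 * (D * ((s + 4 + 1) * (s + 4))) = D * (6 * ((s + 4 + 1) * (s + 4))) := by ring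
        _ ≤ D * (5 * (2 * ((s + 4) * (s + 3)))) := Nat.mul_le_mul_left _ this
        _ = _ := by ring
  calc ∑ i : Cl r, Fintype.card ({u // u ∈ A i} × Bool)
      ≤ ∑ i : Cl r, 2 * 32 ^ (D * (2 * (r * (r - 1)))) := Finset.sum_le_sum (fun i _ => h2 i)
    _ = (r + 1 + (r - 1)) * (2 * 32 ^ (D * (2 * (r * (r - 1))))) := by
        rw [Finset.sum_const, Finset.card_univ, Fintype.card_sum, ZMod.card, Fintype.card_fin,
          smul_eq_mul]
    _ = _ := by
        have : r + 1 + (r - 1) = 2 * r := by omega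
        rw [this]; ring

end constr

/-- **Q1 fails for every `r ≥ 4`.** -/
theorem not_small (r : ℕ) (hr : 4 ≤ r) : ¬ SmallMiddle r := by
  classical
  intro h
  set K := (r + 1) * (r * (r - 1)) with hK
  obtain ⟨m₀, hm₀⟩ := label_small
  have hr0 : (0 : ℝ) < 4 * r := by
    have : (0 : ℝ) < r := by exact_mod_cast (by omega : 0 < r)
    linarith
  obtain ⟨n₀, hn₀⟩ := h ((3 / 4 : ℝ) ^ K / (4 * r) ^ (r + 1) / 2) (by positivity)
  set m := max (max m₀ n₀) 1 with hm
  have hm1 : 1 ≤ m := le_max_right _ _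
  have hm2 : m₀ ≤ m := le_trans (le_max_left _ _) (le_max_left _ _)
  have hm3 : n₀ ≤ m := le_trans (le_max_right _ _) (le_max_left _ _)
  obtain ⟨φ, hφ⟩ := exists_code (m ^ 2) (3162 * m)
  have htri : Tri3 (Gd (3162 * m) φ) := tri_gd φ hφ
  have hE := many_edges m hm1
  set E := univ.filter (fun q : (Fin (m ^ 2) → Fin 32) × (Fin (m ^ 2) → Fin 32) =>
      Rl (3162 * m) q.1 q.2) with hEdef
  have hpow : 1 ≤ 1024 ^ (m ^ 2) := Nat.one_le_pow _ _ (by norm_num)
  have hEpos : 0 < E.card := by omega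
  have hgne : (Gd (3162 * m) φ).Nonempty := by
    obtain ⟨q, hq⟩ := Finset.card_pos.mp hEpos
    rw [hEdef, Finset.mem_filter] at hq
    exact ⟨_, q.1, q.2, hq.2, rfl⟩
  have hcardE : Fintype.card {q : (Fin (m ^ 2) → Fin 32) × (Fin (m ^ 2) → Fin 32) //
      Rl (3162 * m) q.1 q.2} = E.card := by
    rw [Fintype.card_subtype]
  set F := FF r (3162 * m) φ with hF
  have hflg : Flg F := flg_prd _ (fun p => flg_chn _ _ (col_inj r p) _ (flg_tri htri hgne))
  have hunq : Unq F := unq_prd _ (fun p => unq_chn _ _ (col_inj r p) _ (unq_tri htri))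
  have hFne : F.Nonempty := by
    obtain ⟨q, hq⟩ := Finset.card_pos.mp hEpos
    rw [hEdef, Finset.mem_filter] at hq
    exact ⟨_, fct_mem r (3162 * m) φ (fun _ => ⟨q, hq.2⟩)⟩
  have hcl : Fintype.card (Cl r) = 2 * r := by
    rw [Fintype.card_sum, ZMod.card, Fintype.card_fin]; omega
  have hpm : FlagWeakPM (2 * r) (Gr F) := by
    rw [← hcl]
    exact fwpm hflg hunq hFne
  have hfinV : Finite (Vtx F) := by
    unfold Vtx
    infer_instance
  have := Fintype.ofFinite (Vtx F)
  have hfc : _ ≤ faceCount r (Gr F) := count_faces r (3162 * m) φ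
  rw [hcardE] at hfc
  have hch : Fintype.card (Ch r) = K := by
    rw [Fintype.card_prod, Fintype.card_prod, card_ne, ZMod.card, Fintype.card_fin]
  rw [hch] at hfc
  have hvt : Fintype.card (Vtx F) ≤ _ :=
    card_vtx (D := m ^ 2) (L := (32 * m ^ 2 + 1) ^ (3162 * m) + 1) r (3162 * m) φ hr (hm₀ m hm2)
  set n := Fintype.card (Vtx F) with hn
  set Q : ℕ := 32 ^ (m ^ 2 * (2 * (r * (r - 1)))) with hQ
  have hK1 : 1 ≤ K := by
    have : 1 ≤ r - 1 := by omega
    have : 1 ≤ r * (r - 1) := Nat.mul_pos (by omega) (by omega)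
    exact Nat.mul_pos (by omega) this
  -- many vertices
  have hle : faceCount r (Gr F) ≤ 2 ^ n := by
    unfold faceCount
    calc _ ≤ (Set.univ : Set (Finset (Vtx F))).ncard := Set.ncard_le_ncard (Set.subset_univ _)
          (Set.toFinite _)
      _ = 2 ^ n := by
          rw [Set.ncard_univ, Nat.card_eq_fintype_card, Fintype.card_finset]
  have hE2 : 2 ^ (m ^ 2) ≤ E.card := by
    have e1 : (1024 : ℕ) ^ (m ^ 2) = 512 ^ (m ^ 2) * 2 ^ (m ^ 2) := by
      rw [← mul_pow]; norm_num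
    have e2 : 4 ≤ 512 ^ (m ^ 2) := by
      calc 4 ≤ 512 ^ 1 := by norm_num
        _ ≤ 512 ^ (m ^ 2) := Nat.pow_le_pow_right (by norm_num) (Nat.one_le_pow _ _ hm1)
    have e3 : 4 * 2 ^ (m ^ 2) ≤ 1024 ^ (m ^ 2) := by
      rw [e1]; exact Nat.mul_le_mul_right _ e2
    omega
  have hnm : n₀ ≤ n := by
    have h1 : 2 ^ m ≤ 2 ^ n := by
      calc 2 ^ m ≤ 2 ^ (m ^ 2) := Nat.pow_le_pow_right (by norm_num) (by nlinarith)
        _ ≤ E.card := hE2
        _ = E.card ^ 1 := (pow_one _).symm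
        _ ≤ E.card ^ K := Nat.pow_le_pow_right hEpos hK1
        _ ≤ _ := hfc
        _ ≤ _ := hle
    have h2 : m ≤ n := (Nat.pow_le_pow_iff_right (by norm_num)).mp h1
    omega
  have hmain := hn₀ (Vtx F) (Gr F) hnm hpm
  rw [← hn] at hmain
  -- numeric contradiction
  have hnpos : 0 < n := by
    by_contra hn0
    have hn0' : n = 0 := by omega
    rw [hn0'] at hle
    have : 2 ≤ 2 ^ (m ^ 2) := by
      calc 2 = 2 ^ 1 := by norm_num
        _ ≤ _ := Nat.pow_le_pow_right (by norm_num) (Nat.one_le_pow _ _ hm1)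
    have h3 : E.card ≤ E.card ^ K := by
      calc E.card = E.card ^ 1 := (pow_one _).symm
        _ ≤ _ := Nat.pow_le_pow_right hEpos hK1
    have h4 : faceCount r (Gr F) ≤ 1 := by simpa using hle
    omega
  have hnR : (0 : ℝ) < n := by exact_mod_cast hnpos
  have hER : (3 / 4 : ℝ) * 1024 ^ (m ^ 2) ≤ (E.card : ℝ) := by
    have : (3 * 1024 ^ (m ^ 2) : ℝ) ≤ 4 * E.card := by exact_mod_cast hE
    linarith
  have h1 : ((3 / 4 : ℝ) * 1024 ^ (m ^ 2)) ^ K ≤ (faceCount r (Gr F) : ℝ) := by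
    calc ((3 / 4 : ℝ) * 1024 ^ (m ^ 2)) ^ K ≤ (E.card : ℝ) ^ K :=
          pow_le_pow_left₀ (by positivity) hER K
      _ ≤ _ := by exact_mod_cast hfc
  have h2 : ((1024 : ℝ) ^ (m ^ 2)) ^ K = (Q : ℝ) ^ (r + 1) := by
    rw [hQ]
    push_cast
    have e1 : (1024 : ℝ) = 32 ^ 2 := by norm_num
    rw [e1, ← pow_mul, ← pow_mul, ← pow_mul]
    congr 1
    rw [hK]
    ring
  rw [mul_pow, h2] at h1
  have h3 : (n : ℝ) ≤ (4 * r) * Q := by exact_mod_cast hvt
  have h4 : (n : ℝ) ^ (r + 1) ≤ (4 * r) ^ (r + 1) * (Q : ℝ) ^ (r + 1) := by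
    rw [← mul_pow]
    exact pow_le_pow_left₀ hnR.le h3 _
  have h5 : (0 : ℝ) < (4 * (r : ℝ)) ^ (r + 1) := by positivity
  have h6 : (0 : ℝ) < (3 / 4 : ℝ) ^ K := by positivity
  have h7 : (3 / 4 : ℝ) ^ K * ((n : ℝ) ^ (r + 1) / (4 * r) ^ (r + 1)) ≤
      (3 / 4 : ℝ) ^ K * (Q : ℝ) ^ (r + 1) := by
    apply mul_le_mul_of_nonneg_left _ h6.le
    rw [div_le_iff₀ h5]
    linarith
  have h8 : (0 : ℝ) < (3 / 4 : ℝ) ^ K * ((n : ℝ) ^ (r + 1) / (4 * r) ^ (r + 1)) := by positivity
  have h9 : (3 / 4 : ℝ) ^ K / (4 * r) ^ (r + 1) / 2 * (n : ℝ) ^ (r + 1)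
      = ((3 / 4 : ℝ) ^ K * ((n : ℝ) ^ (r + 1) / (4 * r) ^ (r + 1))) / 2 := by
    ring
  rw [h9] at hmain
  linarith

end Pool.Agent.Q107.FW
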