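import Mathlib
import Pool.Agent.Q107.FW.Main

set_option autoImplicit false

open Finset

namespace Pool.Agent.Q107.FW

variable {V : Type} [Fintype V] [DecidableEq V]

omit [DecidableEq V] in
theorem card_pairs (K : SimpleGraph V) [DecidableRel K.Adj] :
    (univ.filter (fun q : V × V => K.Adj q.1 q.2)).card = 2 * K.edgeFinset.card := by
  rw [← K.sum_degrees_eq_twice_card_edges, Finset.card_filter, Fintype.sum_prod_type]
  apply Finset.sum_congr rfl
  intro v _
  rw [← Finset.card_filter, ← K.card_neighborFinset_eq_degree]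
  congr 1
  ext w
  simp

/-- number of ordered triangles -/
theorem card_tri_le (K : SimpleGraph V) [DecidableRel K.Adj] :
    (K.cliqueFinset 3).card ≤
      (univ.filter (fun q : V × V × V => K.Adj q.1 q.2.1 ∧ K.Adj q.1 q.2.2 ∧ K.Adj q.2.1 q.2.2)).card := by
  have h : K.cliqueFinset 3 ⊆
      (univ.filter (fun q : V × V × V => K.Adj q.1 q.2.1 ∧ K.Adj q.1 q.2.2 ∧ K.Adj q.2.1 q.2.2)).image
        (fun q => {q.1, q.2.1, q.2.2}) := by
    intro s hs
    rw [SimpleGraph.mem_cliqueFinset_iff, SimpleGraph.is3Clique_iff] at hs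
    obtain ⟨a, b, c, h1, h2, h3, rfl⟩ := hs
    rw [Finset.mem_image]
    exact ⟨(a, b, c), by simp [h1, h2, h3], rfl⟩
  exact le_trans (Finset.card_le_card h) Finset.card_image_le

/-- In a graph in which the two ends of every edge have exactly two common neighbours, a set of
edges meeting all triangles contains a positive proportion of the edges. -/
theorem edges_le (H G' : SimpleGraph V) [DecidableRel H.Adj] [DecidableRel G'.Adj]
    (hfree : G'.CliqueFree 3)
    (hN : ∀ a b, H.Adj a b → (univ.filter (fun c => H.Adj a c ∧ H.Adj b c)).card = 2) :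
    (univ.filter (fun q : V × V => H.Adj q.1 q.2)).card ≤
      5 * (univ.filter (fun q : V × V => H.Adj q.1 q.2 ∧ ¬ G'.Adj q.1 q.2)).card := by
  set R := univ.filter (fun q : V × V => H.Adj q.1 q.2 ∧ ¬ G'.Adj q.1 q.2) with hR
  let N : V × V → Finset V := fun q => univ.filter (fun c => H.Adj q.1 c ∧ H.Adj q.2 c)
  have hNc : ∀ q ∈ R, (N q).card = 2 := by
    intro q hq
    rw [hR, Finset.mem_filter] at hq
    exact hN _ _ hq.2.1
  have hsub : univ.filter (fun q : V × V => H.Adj q.1 q.2) ⊆
      R ∪ ((R.biUnion (fun q => (N q).image (fun z => (z, q.1)))) ∪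
        (R.biUnion (fun q => (N q).image (fun z => (q.1, z))))) := by
    rintro ⟨a, b⟩ hab
    rw [Finset.mem_filter] at hab
    have hab1 : H.Adj a b := hab.2
    have h2 := hN a b hab1
    obtain ⟨c, hc⟩ : (univ.filter (fun c => H.Adj a c ∧ H.Adj b c)).Nonempty := by
      rw [← Finset.card_pos, h2]; norm_num
    rw [Finset.mem_filter] at hc
    have hac := hc.2.1
    have hbc := hc.2.2
    by_cases g1 : G'.Adj a b
    · by_cases g2 : G'.Adj b c
      · by_cases g3 : G'.Adj a c
        · exfalso
          refine hfree {a, b, c} ?_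
          rw [SimpleGraph.is3Clique_triple_iff]
          exact ⟨g1, g3, g2⟩
        · apply Finset.mem_union_right
          apply Finset.mem_union_right
          rw [Finset.mem_biUnion]
          refine ⟨(a, c), ?_, ?_⟩
          · rw [hR, Finset.mem_filter]
            exact ⟨Finset.mem_univ _, hac, g3⟩
          · rw [Finset.mem_image]
            refine ⟨b, ?_, rfl⟩
            rw [Finset.mem_filter]
            exact ⟨Finset.mem_univ _, hab1, hbc.symm⟩
      · apply Finset.mem_union_right
        apply Finset.mem_union_left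
        rw [Finset.mem_biUnion]
        refine ⟨(b, c), ?_, ?_⟩
        · rw [hR, Finset.mem_filter]
          exact ⟨Finset.mem_univ _, hbc, g2⟩
        · rw [Finset.mem_image]
          refine ⟨a, ?_, rfl⟩
          rw [Finset.mem_filter]
          exact ⟨Finset.mem_univ _, hab1.symm, hac.symm⟩
    · apply Finset.mem_union_left
      rw [hR, Finset.mem_filter]
      exact ⟨Finset.mem_univ _, hab1, g1⟩
  have hb1 : (R.biUnion (fun q => (N q).image (fun z => (z, q.1)))).card ≤ R.card * 2 := by
    apply Finset.card_biUnion_le_card_mul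
    intro q hq
    exact le_trans Finset.card_image_le (hNc q hq).le
  have hb2 : (R.biUnion (fun q => (N q).image (fun z => (q.1, z)))).card ≤ R.card * 2 := by
    apply Finset.card_biUnion_le_card_mul
    intro q hq
    exact le_trans Finset.card_image_le (hNc q hq).le
  have h1 := Finset.card_le_card hsub
  have h2 := Finset.card_union_le R ((R.biUnion (fun q => (N q).image (fun z => (z, q.1)))) ∪
        (R.biUnion (fun q => (N q).image (fun z => (q.1, z)))))
  have h3 := Finset.card_union_le (R.biUnion (fun q => (N q).image (fun z => (z, q.1))))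
        (R.biUnion (fun q => (N q).image (fun z => (q.1, z))))
  omega

/-- A graph in which the ends of each edge have exactly two common neighbours has few edges. -/
theorem few_edges (ε : ℝ) (hε : 0 < ε) : ∃ n₀ : ℕ, ∀ (V : Type) [Fintype V] [DecidableEq V]
    (H : SimpleGraph V) [DecidableRel H.Adj], n₀ ≤ Fintype.card V →
    (∀ a b, H.Adj a b → (univ.filter (fun c => H.Adj a c ∧ H.Adj b c)).card = 2) →
    ((univ.filter (fun q : V × V => H.Adj q.1 q.2)).card : ℝ) ≤
      10 * ε * (Fintype.card V : ℝ) ^ 2 := by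
  have hb : 0 < SimpleGraph.triangleRemovalBound (min ε 1) :=
    SimpleGraph.triangleRemovalBound_pos (by positivity)
  set β := SimpleGraph.triangleRemovalBound (min ε 1) with hβ
  obtain ⟨n₀, hn₀⟩ := exists_nat_gt (2 / β)
  refine ⟨n₀ + 1, ?_⟩
  intro V _ _ H _ hn hN
  have hnR : 2 / β < (Fintype.card V : ℝ) := by
    have : (n₀ : ℝ) ≤ Fintype.card V := by exact_mod_cast (by omega : n₀ ≤ Fintype.card V)
    linarith
  have hnpos : (0 : ℝ) < Fintype.card V := by
    have : (0 : ℝ) < 2 / β := by positivity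
    linarith
  -- number of triangles
  have hT : ((H.cliqueFinset 3).card : ℝ) ≤ 2 * (Fintype.card V : ℝ) ^ 2 := by
    have h1 : (univ.filter (fun q : V × V × V =>
        H.Adj q.1 q.2.1 ∧ H.Adj q.1 q.2.2 ∧ H.Adj q.2.1 q.2.2)).card ≤
        Fintype.card V * Fintype.card V * 2 := by
      have h2 : univ.filter (fun q : V × V × V =>
          H.Adj q.1 q.2.1 ∧ H.Adj q.1 q.2.2 ∧ H.Adj q.2.1 q.2.2) ⊆
          (univ.filter (fun q : V × V => H.Adj q.1 q.2)).biUnion (fun q =>
            (univ.filter (fun c => H.Adj q.1 c ∧ H.Adj q.2 c)).image (fun c => (q.1, q.2, c))) := by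
        rintro ⟨a, b, c⟩ h
        rw [Finset.mem_filter] at h
        rw [Finset.mem_biUnion]
        refine ⟨(a, b), ?_, ?_⟩
        · rw [Finset.mem_filter]; exact ⟨Finset.mem_univ _, h.2.1⟩
        · rw [Finset.mem_image]
          refine ⟨c, ?_, rfl⟩
          rw [Finset.mem_filter]; exact ⟨Finset.mem_univ _, h.2.2.1, h.2.2.2⟩
      refine le_trans (Finset.card_le_card h2) ?_
      refine le_trans (Finset.card_biUnion_le_card_mul _ _ 2 ?_) ?_
      · intro q hq
        rw [Finset.mem_filter] at hq
        exact le_trans Finset.card_image_le (hN _ _ hq.2).le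
      · apply Nat.mul_le_mul_right
        refine le_trans (Finset.card_le_univ _) ?_
        rw [Fintype.card_prod]
    have h3 := le_trans (card_tri_le H) h1
    have h4 : ((H.cliqueFinset 3).card : ℝ) ≤ Fintype.card V * Fintype.card V * 2 := by
      exact_mod_cast h3
    linarith [h4]
  have hT2 : ((H.cliqueFinset 3).card : ℝ) < β * (Fintype.card V : ℝ) ^ 3 := by
    rw [div_lt_iff₀ hb] at hnR
    calc ((H.cliqueFinset 3).card : ℝ) ≤ 2 * (Fintype.card V : ℝ) ^ 2 := hT
      _ < (Fintype.card V * β) * (Fintype.card V : ℝ) ^ 2 := by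
          apply mul_lt_mul_of_pos_right hnR; positivity
      _ = _ := by ring
  obtain ⟨G', hle, hdec, hlt, hfree⟩ := SimpleGraph.triangle_removal (G := H) (ε := min ε 1)
    (by exact_mod_cast hT2)
  have h5 := edges_le H G' hfree hN
  have h6 : ((univ.filter (fun q : V × V => H.Adj q.1 q.2 ∧ ¬ G'.Adj q.1 q.2)).card : ℝ)
      ≤ 2 * (ε * (Fintype.card V : ℝ) ^ 2) := by
    have e1 := card_pairs H
    have e2 := card_pairs G'
    have e3 : (univ.filter (fun q : V × V => H.Adj q.1 q.2)).card =
        (univ.filter (fun q : V × V => G'.Adj q.1 q.2)).card +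
        (univ.filter (fun q : V × V => H.Adj q.1 q.2 ∧ ¬ G'.Adj q.1 q.2)).card := by
      rw [← Finset.card_union_of_disjoint]
      · congr 1
        ext q
        simp only [Finset.mem_filter, Finset.mem_univ, true_and, Finset.mem_union]
        constructor
        · intro h
          by_cases h' : G'.Adj q.1 q.2
          · exact Or.inl h'
          · exact Or.inr ⟨h, h'⟩
        · rintro (h | h)
          · exact hle h
          · exact h.1
      · rw [Finset.disjoint_left]
        intro q hq hq'
        rw [Finset.mem_filter] at hq hq'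
        exact hq'.2.2 hq.2
    have e4 : ((univ.filter (fun q : V × V => H.Adj q.1 q.2 ∧ ¬ G'.Adj q.1 q.2)).card : ℝ)
        = 2 * ((H.edgeFinset.card : ℝ) - (G'.edgeFinset.card : ℝ)) := by
      have e5 : ((univ.filter (fun q : V × V => H.Adj q.1 q.2)).card : ℝ) =
          ((univ.filter (fun q : V × V => G'.Adj q.1 q.2)).card : ℝ) +
          ((univ.filter (fun q : V × V => H.Adj q.1 q.2 ∧ ¬ G'.Adj q.1 q.2)).card : ℝ) := by
        exact_mod_cast e3
      rw [e1, e2] at e5
      push_cast at e5
      linarith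
    rw [e4]
    have e6 : ((H.edgeFinset.card : ℝ) - (G'.edgeFinset.card : ℝ)) <
        min ε 1 * ((Fintype.card V ^ 2 : ℕ) : ℝ) := hlt
    have e7 : min ε 1 * ((Fintype.card V ^ 2 : ℕ) : ℝ) ≤ ε * (Fintype.card V : ℝ) ^ 2 := by
      push_cast
      apply mul_le_mul_of_nonneg_right (min_le_left _ _)
      positivity
    linarith
  have h7 : ((univ.filter (fun q : V × V => H.Adj q.1 q.2)).card : ℝ) ≤
      5 * ((univ.filter (fun q : V × V => H.Adj q.1 q.2 ∧ ¬ G'.Adj q.1 q.2)).card : ℝ) := by
    exact_mod_cast h5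
  linarith

/-- the link graph of a vertex -/
def lkG (G : SimpleGraph V) (v : V) : SimpleGraph V where
  Adj a b := G.Adj v a ∧ G.Adj v b ∧ G.Adj a b
  symm := ⟨fun _ _ h => ⟨h.2.1, h.1, h.2.2.symm⟩⟩
  loopless := ⟨fun _ h => G.loopless.irrefl _ h.2.2⟩

omit [Fintype V] in
theorem lk_two (G : SimpleGraph V) (hG : FlagWeakPM 4 G) (v a b : V)
    (h : (lkG G v).Adj a b) : ∃ c d : V, c ≠ d ∧
      ∀ x, ((lkG G v).Adj a x ∧ (lkG G v).Adj b x) ↔ (x = c ∨ x = d) := by
  obtain ⟨h1, h2, h3⟩ := h
  obtain ⟨c, d, hcd, -, hall⟩ := hG.2 {v, a, b} (by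
    rw [SimpleGraph.isClique_iff]
    intro x hx y hy hxy
    simp only [Finset.coe_insert, Finset.coe_singleton, Set.mem_insert_iff,
      Set.mem_singleton_iff] at hx hy
    rcases hx with rfl | rfl | rfl <;> rcases hy with rfl | rfl | rfl <;>
      first
      | exact absurd rfl hxy
      | exact h1
      | exact h2
      | exact h3
      | exact h1.symm
      | exact h2.symm
      | exact h3.symm) (by
    have hva : v ∉ ({a, b} : Finset V) := by
      simp only [Finset.mem_insert, Finset.mem_singleton, not_or]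
      exact ⟨h1.ne, h2.ne⟩
    rw [Finset.card_insert_of_notMem hva, Finset.card_pair h3.ne])
  refine ⟨c, d, hcd, fun x => ?_⟩
  rw [← hall x]
  constructor
  · rintro ⟨⟨-, h5, h6⟩, ⟨-, -, h7⟩⟩ u hu
    simp only [Finset.mem_insert, Finset.mem_singleton] at hu
    rcases hu with rfl | rfl | rfl
    · exact h5
    · exact h6
    · exact h7
  · intro hx
    have e1 := hx v (by simp)
    have e2 := hx a (by simp)
    have e3 := hx b (by simp)
    exact ⟨⟨h1, e1, e2⟩, ⟨h2, e1, e3⟩⟩

/-- **Q1 holds for `r = 2`.** -/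
theorem small_two : SmallMiddle 2 := by
  classical
  intro β hβ
  obtain ⟨n₀, hn₀⟩ := few_edges (β / 10) (by positivity)
  refine ⟨n₀, ?_⟩
  intro V _ G hn hG
  have h1 : ∀ v : V, ((univ.filter (fun q : V × V => (lkG G v).Adj q.1 q.2)).card : ℝ) ≤
      β * (Fintype.card V : ℝ) ^ 2 := by
    intro v
    have := hn₀ V (lkG G v) hn (by
      intro a b hab
      obtain ⟨c, d, hcd, hall⟩ := lk_two G hG v a b hab
      have : univ.filter (fun x => (lkG G v).Adj a x ∧ (lkG G v).Adj b x) = {c, d} := by
        ext x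
        rw [Finset.mem_filter, Finset.mem_insert, Finset.mem_singleton, hall x]
        simp
      rw [this, Finset.card_pair hcd])
    calc _ ≤ _ := this
      _ = _ := by ring
  have h2 : faceCount 2 G ≤ (univ.filter (fun q : V × V × V =>
      G.Adj q.1 q.2.1 ∧ G.Adj q.1 q.2.2 ∧ G.Adj q.2.1 q.2.2)).card := by
    refine le_trans (le_of_eq ?_) (card_tri_le G)
    unfold faceCount
    rw [← Set.ncard_coe_finset]
    congr 1
    ext s
    rw [Finset.mem_coe, SimpleGraph.mem_cliqueFinset_iff, SimpleGraph.isNClique_iff]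
    exact Iff.rfl
  have h3 : (univ.filter (fun q : V × V × V =>
      G.Adj q.1 q.2.1 ∧ G.Adj q.1 q.2.2 ∧ G.Adj q.2.1 q.2.2)).card =
      ∑ v : V, (univ.filter (fun q : V × V => (lkG G v).Adj q.1 q.2)).card := by
    rw [Finset.card_filter, Fintype.sum_prod_type]
    apply Finset.sum_congr rfl
    intro v _
    rw [← Finset.card_filter]
    congr 1
    ext q
    rw [Finset.mem_filter, Finset.mem_filter]
    exact Iff.rfl
  rw [h3] at h2
  calc (faceCount 2 G : ℝ)
      ≤ ((∑ v : V, (univ.filter (fun q : V × V => (lkG G v).Adj q.1 q.2)).card : ℕ) : ℝ) := by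
        exact_mod_cast h2
    _ = ∑ v : V, ((univ.filter (fun q : V × V => (lkG G v).Adj q.1 q.2)).card : ℝ) := by
        push_cast; rfl
    _ ≤ ∑ v : V, β * (Fintype.card V : ℝ) ^ 2 := Finset.sum_le_sum (fun v _ => h1 v)
    _ = β * (Fintype.card V : ℝ) ^ (2 + 1) := by
        rw [Finset.sum_const, Finset.card_univ, nsmul_eq_mul]
        ring

end Pool.Agent.Q107.FW
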